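import Pool.Agent.Helper17.CR.Stmts2

set_option autoImplicit false

namespace Pool.Agent.Helper17.CR

open Finset

/-- the exponent measured by the logarithm -/
noncomputable def seqTh (D p x : ℕ) : ℝ := (ex D p x : ℝ) * Real.log p / Real.log x

theorem seq_nonneg (D p x : ℕ) (hp : p.Prime) (hx : 2 ≤ x) : 0 ≤ seqTh D p x := by
  unfold seqTh
  have h1 : 0 ≤ Real.log p := Real.log_nonneg (by exact_mod_cast hp.one_lt.le)
  have h2 : 0 ≤ Real.log x := Real.log_nonneg (by exact_mod_cast (by omega : 1 ≤ x))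
  positivity

theorem seq_le (D p x : ℕ) (hD : 1 ≤ D) (hp : p.Prime) (hx : 2 ≤ x) :
    seqTh D p x ≤ 2 + Real.log (1 + D) / Real.log 2 := by
  unfold seqTh
  have hx1 : (2 : ℝ) ≤ x := by exact_mod_cast hx
  have hlx : Real.log 2 ≤ Real.log x := Real.log_le_log (by norm_num) hx1
  have hl2 : 0 < Real.log 2 := Real.log_pos (by norm_num)
  have hlx0 : 0 < Real.log x := lt_of_lt_of_le hl2 hlx
  have hp0 : (0 : ℝ) < p := by exact_mod_cast hp.pos
  have hne : x ^ 2 + D ≠ 0 := by positivity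
  have h1 : p ^ ex D p x ≤ x ^ 2 + D := Nat.le_of_dvd (Nat.pos_of_ne_zero hne)
    (Nat.ordProj_dvd (x ^ 2 + D) p)
  have h2 : ((p ^ ex D p x : ℕ) : ℝ) ≤ (x : ℝ) ^ 2 * (1 + D) := by
    have h3 : ((p ^ ex D p x : ℕ) : ℝ) ≤ ((x ^ 2 + D : ℕ) : ℝ) := by exact_mod_cast h1
    refine le_trans h3 ?_
    push_cast
    have h4 : (1 : ℝ) ≤ (x : ℝ) ^ 2 := by nlinarith
    have h5 : (0 : ℝ) ≤ D := Nat.cast_nonneg _
    nlinarith
  have h3 : (ex D p x : ℝ) * Real.log p ≤ 2 * Real.log x + Real.log (1 + D) := by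
    have h4 := Real.log_le_log (by exact_mod_cast pow_pos hp.pos (ex D p x)) h2
    rw [Nat.cast_pow, Real.log_pow, Real.log_mul (by positivity) (by positivity),
      Real.log_pow] at h4
    exact_mod_cast h4
  have h6 : 0 ≤ Real.log (1 + D) := Real.log_nonneg (by
    have h5 : (0 : ℝ) ≤ D := Nat.cast_nonneg _
    linarith)
  rw [div_le_iff₀ hlx0]
  refine le_trans h3 ?_
  rw [add_mul]
  have h7 : Real.log (1 + D) ≤ Real.log (1 + D) / Real.log 2 * Real.log x := by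
    rw [div_mul_eq_mul_div, le_div_iff₀ hl2]
    exact mul_le_mul_of_nonneg_left hlx h6
  linarith

theorem st_SEQ : ST_SEQ := by
  intro D c S δ A hD hδ hS hA
  obtain ⟨K, hK⟩ : ∃ K : ℕ, K = ⌊(2 + Real.log (1 + D) / Real.log 2) / δ⌋₊ := ⟨_, rfl⟩
  obtain ⟨P, hP⟩ : ∃ P : ℕ, P = ∏ p ∈ S, p ^ c := ⟨_, rfl⟩
  have hP0 : 0 < P := by
    rw [hP]
    exact Finset.prod_pos fun p hp => pow_pos (hS p hp).pos c
  obtain ⟨A2, hA2⟩ : ∃ A2 : Set ℕ, A2 = A \ {x | x < 2} := ⟨_, rfl⟩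
  have hinf : A2.Infinite := by
    rw [hA2]
    exact hA.sdiff (Set.finite_lt_nat 2)
  have hmem : ∀ x ∈ A2, x ∈ A ∧ 2 ≤ x := by
    intro x hx
    rw [hA2] at hx
    refine ⟨hx.1, ?_⟩
    have h := hx.2
    by_contra hlt
    exact h (by simpa using hlt)
  have : Infinite A2 := hinf.to_subtype
  let f : A2 → Fin P × (S → Fin (K + 1)) := fun x =>
    (⟨x.1 % P, Nat.mod_lt _ hP0⟩, fun p => ⟨min ⌊seqTh D p.1 x.1 / δ⌋₊ K, by omega⟩)
  obtain ⟨y0, hy0⟩ := Finite.exists_infinite_fiber f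
  refine ⟨Subtype.val '' (f ⁻¹' {y0}), ?_, ?_, ?_, ?_⟩
  · rintro _ ⟨x, _, rfl⟩
    exact (hmem x.1 x.2).1
  · apply Set.Infinite.image
    · exact Subtype.val_injective.injOn
    · exact Set.infinite_coe_iff.mp hy0
  · rintro _ ⟨x, _, rfl⟩
    exact (hmem x.1 x.2).2
  · rintro _ ⟨x, hx, rfl⟩ _ ⟨y, hy, rfl⟩ p hp
    have hxy : f x = f y := by
      have h1 : f x = y0 := hx
      have h2 : f y = y0 := hy
      rw [h1, h2]
    have e1 : x.1 % P = y.1 % P := congrArg Fin.val (congrArg Prod.fst hxy)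
    have e2 : min ⌊seqTh D p x.1 / δ⌋₊ K = min ⌊seqTh D p y.1 / δ⌋₊ K :=
      congrArg Fin.val (congrFun (congrArg Prod.snd hxy) ⟨p, hp⟩)
    have hb : ∀ z : A2, ⌊seqTh D p z.1 / δ⌋₊ ≤ K := by
      intro z
      rw [hK]
      apply Nat.floor_le_floor
      exact div_le_div_of_nonneg_right (seq_le D p z.1 hD (hS p hp) (hmem z.1 z.2).2) hδ.le
    rw [min_eq_left (hb x), min_eq_left (hb y)] at e2
    refine ⟨?_, ?_⟩
    · have h3 : ((P : ℕ) : ℤ) ∣ (x.1 : ℤ) - y.1 := by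
        have h4 : y.1 ≡ x.1 [MOD P] := e1.symm
        exact (Nat.modEq_iff_dvd).mp h4
      refine dvd_trans ?_ h3
      have h5 : p ^ c ∣ P := by
        rw [hP]
        exact Finset.dvd_prod_of_mem (fun p => p ^ c) hp
      exact_mod_cast h5
    · have hx0 : 0 ≤ seqTh D p x.1 / δ :=
        div_nonneg (seq_nonneg D p x.1 (hS p hp) (hmem x.1 x.2).2) hδ.le
      have hy0' : 0 ≤ seqTh D p y.1 / δ :=
        div_nonneg (seq_nonneg D p y.1 (hS p hp) (hmem y.1 y.2).2) hδ.le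
      have a1 := Nat.floor_le hx0
      have a2 := Nat.lt_floor_add_one (seqTh D p x.1 / δ)
      have a3 := Nat.floor_le hy0'
      have a4 := Nat.lt_floor_add_one (seqTh D p y.1 / δ)
      rw [e2] at a1 a2
      have h6 : |seqTh D p x.1 / δ - seqTh D p y.1 / δ| ≤ 1 := by
        rw [abs_le]
        constructor <;> linarith
      rw [← sub_div, abs_div, abs_of_pos hδ, div_le_one hδ] at h6
      exact h6

end Pool.Agent.Helper17.CR
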